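import Mathlib

set_option autoImplicit false

namespace Pool.Agent.Results.MP_4f3acd_an.No

open MeasureTheory Set Filter Topology Function

variable {Ω : Type} [MeasurableSpace Ω] (P : Measure Ω) (𝕜 : Type) [RCLike 𝕜]
  {E : Type} [AddCommGroup E]

/-- classes of random variables -/
abbrev L0 := Ω →ₘ[P] 𝕜

/-- countable measurable partitions -/
def Part (A : ℕ → Set Ω) : Prop :=
  (∀ n, MeasurableSet (A n)) ∧ Pairwise (Disjoint on A) ∧ ⋃ n, A n = univ

/-- class of an indicator -/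
noncomputable def I {A : Set Ω} (h : MeasurableSet A) : L0 P 𝕜 :=
  .mk (A.indicator 1) (aestronglyMeasurable_one.indicator h)

variable {P}

/-- open for the topology of convergence in probability -/
def Oe (ν : E → L0 P ℝ) (U : Set E) : Prop := ∀ x ∈ U, ∃ ε l : ℝ, 0 < ε ∧ 0 < l ∧ l < 1 ∧
  {y | 1 - l < P.real {ω | ν (y - x) ω < ε}} ⊆ U

/-- open for the finer topology -/
def Oc (ν : E → L0 P ℝ) (U : Set E) : Prop := ∀ x ∈ U, ∃ ε : L0 P ℝ, (∀ᵐ ω ∂P, 0 < ε ω) ∧
  {y | ∀ᵐ ω ∂P, ν (y - x) ω < ε ω} ⊆ U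

/-- neighbourhood of a set -/
def Nb {T : Type} (O : Set T → Prop) (A U : Set T) : Prop := ∃ W, O W ∧ A ⊆ W ∧ W ⊆ U

/-- upper semicontinuity for the finer topology -/
def Usc (ν : E → L0 P ℝ) (F : E → Set E) : Prop := ∀ x U, Nb (Oc ν) (F x) U →
  ∃ V, Nb (Oc ν) {x} V ∧ ∀ y ∈ V, F y ⊆ U

variable [DistribMulAction (L0 P 𝕜) E]

/-- random normed module -/
def RN (ν : E → L0 P ℝ) : Prop := (∀ (a b : L0 P 𝕜) (x : E), (a + b) • x = a • x + b • x) ∧
  (∀ x, 0 ≤ ν x) ∧ (∀ (ξ : L0 P 𝕜) x, ∀ᵐ ω ∂P, ν (ξ • x) ω = ‖ξ ω‖ * ν x ω) ∧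
  (∀ x y, ν (x + y) ≤ ν x + ν y) ∧ ∀ x, ν x = 0 → x = 0

variable (P) in
/-- `y` is the concatenation of the `x n` along the sets `A n` -/
def Glue {A : ℕ → Set Ω} (h : ∀ n, MeasurableSet (A n)) (x : ℕ → E) (y : E) : Prop :=
  ∀ n, I P 𝕜 (h n) • y = I P 𝕜 (h n) • x n

variable (P) in
/-- the module and the map are stable -/
def St (F : E → Set E) : Prop := ∀ A (h : Part A) (x : ℕ → E), (∃ y, Glue P 𝕜 h.1 x y) ∧
  ∀ y, Glue P 𝕜 h.1 x y → F y = {z | ∃ w : ℕ → E, (∀ k, w k ∈ F (x k)) ∧ Glue P 𝕜 h.1 w z}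

/-- random sequential upper semicontinuity -/
def Rs (ν : E → L0 P ℝ) (F : E → Set E) : Prop := ∀ (x₀ : E) (x : ℕ → E),
  (∀ ε > 0, Tendsto (fun n => P.real {ω | ε ≤ ν (x n - x₀) ω}) atTop (𝓝 0)) →
  ∀ V, Nb (Oe ν) (F x₀) V → ∃ (n : ℕ → Ω → ℕ) (h : ∀ k, Measurable (n k)) (z : ℕ → E),
    (∀ k, ∀ᵐ ω ∂P, n k ω < n (k + 1) ω) ∧
    (∀ k, Glue P 𝕜 (fun l => h k (measurableSet_singleton l)) x (z k)) ∧ ∀ᶠ k in atTop, F (z k) ⊆ V

theorem result (𝕜 : Type) [RCLike 𝕜] : ∃ (Ω : Type) (_ : MeasurableSpace Ω) (P : Measure Ω)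
    (_ : IsProbabilityMeasure P) (E : Type) (_ : AddCommGroup E) (_ : DistribMulAction (L0 P 𝕜) E)
    (ν : E → L0 P ℝ) (F : E → Set E), RN 𝕜 ν ∧ (∀ x, (F x).Nonempty) ∧ St P 𝕜 F ∧ Rs 𝕜 ν F ∧
    ¬ Usc ν F := by
  classical
  obtain ⟨P, hP, p0⟩ : ∃ P : Measure ℕ, IsProbabilityMeasure P ∧ ∀ n, 0 < P.real {n} :=
    ⟨ProbabilityTheory.geometricMeasure ⟨1 / 2, by norm_num, by norm_num⟩, inferInstance,
      ProbabilityTheory.geometricMeasure_real_singleton_pos (by norm_num [Subtype.ext_iff])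
        (by norm_num [Subtype.ext_iff])⟩
  have ae : ∀ {p : ℕ → Prop}, (∀ᵐ ω ∂P, p ω) → ∀ ω, p ω := fun h ω =>
    ae_iff_of_countable.1 h ω fun c => (p0 ω).ne' (by simp [Measure.real, c])
  let mk : (ℕ → ℝ) → L0 P ℝ := fun f => .mk f measurable_from_top.aestronglyMeasurable
  have hmk : ∀ f ω, mk f ω = f ω := fun f => ae (AEEqFun.coeFn_mk _ _)
  let _ : DistribMulAction (L0 P 𝕜) (ℕ → 𝕜) :=
    { smul ξ x ω := ξ ω * x ω
      one_smul x := funext fun ω => (congrArg (· * x ω) (ae AEEqFun.coeFn_one ω)).trans (one_mul _)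
      mul_smul a b x := funext fun ω =>
        (congrArg (· * x ω) (ae (AEEqFun.coeFn_mul a b) ω)).trans (mul_assoc _ _ _)
      smul_zero a := funext fun ω => mul_zero _
      smul_add a x y := funext fun ω => mul_add _ _ _ }
  have sm : ∀ (ξ : L0 P 𝕜) (x : ℕ → 𝕜) ω, (ξ • x) ω = ξ ω * x ω := fun _ _ _ => rfl
  have gl : ∀ {A : ℕ → Set ℕ} (h : ∀ n, MeasurableSet (A n)) (x : ℕ → ℕ → 𝕜) y,
      Glue P 𝕜 h x y ↔ ∀ n, ∀ ω ∈ A n, y ω = x n ω := fun {A} h x y =>
    forall_congr' fun n => funext_iff.trans (forall_congr' fun ω => by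
      rw [sm, sm, I, ae (AEEqFun.coeFn_mk _ _) ω]
      by_cases c : ω ∈ A n <;> simp [c])
  let K : Set (ℕ → 𝕜) := univ.pi fun _ => {0, 1}
  refine ⟨ℕ, inferInstance, P, hP, ℕ → 𝕜, inferInstance, inferInstance, fun x => mk fun ω => ‖x ω‖,
    fun x => {y | y - x ∈ K}, ⟨fun a b x => funext fun ω =>
      (congrArg (· * x ω) (ae (AEEqFun.coeFn_add a b) ω)).trans (add_mul _ _ _), fun x => ?_,
      fun ξ x => .of_forall fun ω => by simp [hmk, sm], fun x y => ?_, fun x h => ?_⟩,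
    fun x => ⟨x, by simp [K]⟩, fun A h x => ?_, ?_, fun H => ?_⟩
  · exact AEEqFun.mk_le_mk _ _ |>.2 (.of_forall fun ω => norm_nonneg _)
  · exact AEEqFun.mk_le_mk _ _ |>.2 (.of_forall fun ω => norm_add_le _ _)
  · exact funext fun ω => norm_eq_zero.1 ((hmk _ ω).symm.trans (h ▸ ae AEEqFun.coeFn_zero ω))
  · choose c hc using fun ω => mem_iUnion.1 (h.2.2 ▸ mem_univ ω)
    have u : ∀ n, ∀ ω ∈ A n, c ω = n := fun n ω a =>
      by_contra fun b => disjoint_left.1 (h.2.1 b) (hc ω) a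
    simp only [gl]
    refine ⟨⟨fun ω => x (c ω) ω, fun n ω a => by simp only [u n ω a]⟩, fun y hy => ext fun z =>
      ⟨fun hz => ⟨fun k => x k + (z - y), by simpa using hz, fun n ω a => by simp [hy n ω a]⟩, ?_⟩⟩
    rintro ⟨w, a, b⟩ ω -
    simpa [hy _ ω (hc ω), b _ ω (hc ω)] using a (c ω) ω trivial
  · rintro x₀ x hx V ⟨W, w1, w2, w3⟩
    have o : IsOpen W := isOpen_iff_mem_nhds.2 fun y hy => by
      obtain ⟨ε, l, e0, l0, -, h⟩ := w1 y hy
      obtain ⟨m, hm⟩ := ((ENNReal.tendsto_toReal (measure_ne_top _ _)).comp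
        (tendsto_measure_iUnion_atTop (μ := P) monotone_Iic)).eventually (lt_mem_nhds
          (show 1 - l < _ by simpa [iUnion_Iic] using l0)) |>.exists
      filter_upwards [(eventually_all_finite (finite_Iic m)).2 fun i _ =>
        (continuous_apply i).continuousAt.eventually (Metric.ball_mem_nhds (y i) e0)] with z hz
      exact h (hm.trans_le (measureReal_mono fun i hi => by simpa [hmk, dist_eq_norm] using hz i hi))
    have t : Tendsto x atTop (𝓝 x₀) := tendsto_pi_nhds.2 fun i => Metric.tendsto_nhds.2 fun ε e0 =>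
      ((hx ε e0).eventually (gt_mem_nhds (p0 i))).mono fun n hn => lt_of_not_ge fun c =>
        hn.not_ge (measureReal_mono (by simpa [hmk, dist_eq_norm] using c))
    refine ⟨fun k _ => k, fun _ => measurable_const, x, by simp, fun k => (gl _ _ _).2 ?_, ?_⟩
    · rintro n ω (rfl : k = n)
      rfl
    filter_upwards [t.eventually ((isCompact_univ_pi fun _ => (toFinite _).isCompact :
      IsCompact K).eventually_forall_of_forall_eventually (P := fun y a => y + a ∈ W) fun a ha =>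
        continuous_add.continuousAt.eventually (o.mem_nhds (w2 (by simpa [K] using ha))))] with k hk y hy
    exact w3 (by simpa using hk _ hy)
  · let r : (ℕ → 𝕜) → ℝ := fun a => 1 / (sInf {j | a j = 1} + 2 : ℕ)
    have r0 : ∀ a, 0 < r a := fun a => by positivity
    obtain ⟨V, ⟨W, w1, w2, w3⟩, h⟩ := H 0 {y | ∃ a ∈ K, ∀ i, ‖y i - a i‖ < r a} ⟨_, by
      rintro y ⟨a, ha, hy⟩
      refine ⟨mk fun i => r a - ‖y i - a i‖, .of_forall fun i => by simpa [hmk] using hy i,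
        fun z hz => ⟨a, ha, fun i => ?_⟩⟩
      have := ae hz i
      simp only [hmk, Pi.sub_apply] at this
      linarith [norm_sub_le_norm_sub_add_norm_sub (z i) (y i) (a i)],
      fun y hy => by exact ⟨y, by simpa using hy, by simpa using r0 y⟩, Subset.rfl⟩
    obtain ⟨ε, e0, he⟩ := w1 0 (w2 rfl)
    obtain ⟨j, hj⟩ := exists_nat_one_div_lt (ae e0 0)
    let x : ℕ → 𝕜 := Pi.single 0 ((1 / (j + 2 : ℕ) : ℝ) : 𝕜)
    have x0 : ‖x 0‖ = 1 / (j + 2 : ℕ) := by
      rw [show x 0 = _ from Pi.single_eq_same _ _, RCLike.norm_ofReal, abs_of_pos (by positivity)]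
    have xi : ∀ i, ‖x i‖ ≤ 1 / (j + 2 : ℕ) := fun i => by
      rcases eq_or_ne i 0 with rfl | h
      · exact x0.le
      · simp [x, h]; positivity
    obtain ⟨a, ha, hy⟩ := h x (w3 (he (by
      rw [mem_ofPred_eq]
      refine Eventually.of_forall fun i => ?_
      rcases eq_or_ne i 0 with rfl | h
      · rw [hmk, sub_zero, x0]
        exact (one_div_le_one_div_of_le (by positivity) (by push_cast; linarith)).trans_lt hj
      · simpa [hmk, x, h] using ae e0 i))) (a := x + Pi.single j 1) fun i _ => by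
          by_cases h : i = j <;> simp [h]
    have half : ∀ n : ℕ, (1 : ℝ) / (n + 2 : ℕ) ≤ 1 / 2 := fun n =>
      one_div_le_one_div_of_le two_pos (by exact_mod_cast le_add_self)
    obtain rfl : a = Pi.single j 1 := funext fun i => by
      have c := norm_sub_le ((x + Pi.single j 1 : ℕ → 𝕜) i - a i) (x i)
      have d : _ < (1 : ℝ) := c.trans_lt (by linarith [(hy i).trans_le (half _), (xi i).trans (half _)])
      rw [Pi.add_apply, sub_right_comm, add_sub_cancel_left] at d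
      clear c
      rcases ha i trivial with h | (h : a i = 1) <;> by_cases e : i = j <;> simp [h, e] at d ⊢ <;>
        simp_all
    have := hy 0
    simp only [r, Pi.add_apply, add_sub_cancel_right, x0] at this
    rw [show {i | (Pi.single j 1 : ℕ → 𝕜) i = 1} = {j} by
      ext i; by_cases e : i = j <;> simp [e], csInf_singleton] at this
    exact this.false

end Pool.Agent.Results.MP_4f3acd_an.No
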